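import Mathlib
import Pool.Agent.Helper34.LF.St

set_option autoImplicit false

/-! Project LF, module CL32. -/

open Finset Pool.Agent.Helper34.LF

namespace Pool.Agent.Helper89.LF

theorem pairs {α : Type} [DecidableEq α] {a a' c c' : α} (ha : a ≠ a')
    (h : ({a, a'} : Finset α) = {c, c'}) : (c = a ∧ c' = a') ∨ (c = a' ∧ c' = a) := by
  have h1 : a ∈ ({c, c'} : Finset α) := by rw [← h]; simp
  have h2 : a' ∈ ({c, c'} : Finset α) := by rw [← h]; simp
  simp only [mem_insert, mem_singleton] at h1 h2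
  rcases h1 with h1 | h1 <;> rcases h2 with h2 | h2
  · exact absurd (h1.trans h2.symm) ha
  · exact Or.inl ⟨h1.symm, h2.symm⟩
  · exact Or.inr ⟨h2.symm, h1.symm⟩
  · exact absurd (h1.trans h2.symm) ha

theorem zne : ∀ x y z t : ZMod 2, (x + y) + (z + t) = 1 → x + y ≠ z + t := by decide

theorem pairL {N : ℕ} {a a' : VA N} {b b' : VB N} (ha : a ≠ a') (hb : b ≠ b')
    (h : Gd {a, a'} {b, b'} ∨ Sc {a, a'} {b, b'}) :
    (b.1 + b'.1) a.1 ≠ (b.1 + b'.1) a'.1 ∨ Sp a a' b b' := by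
  have hc : ({a, a'} : Finset (VA N)).card = 2 := card_pair ha
  rcases h with (⟨h1, _⟩ | ⟨h1, _⟩ | ⟨_, _, hp⟩) | (⟨hB, _⟩ | ⟨h1, _⟩ | ⟨c, c', d, d', _, _, hX, hY, hs⟩)
  · omega
  · omega
  · left
    unfold par at hp
    rw [sum_pair ha, sum_pair hb, sum_pair hb] at hp
    exact zne _ _ _ _ hp
  · have := hB.1
    omega
  · rw [h1] at hc
    simp at hc
  · right
    obtain ⟨s1, s2, s3⟩ := hs
    rcases pairs ha hX with ⟨rfl, rfl⟩ | ⟨rfl, rfl⟩ <;>
      rcases pairs hb hY with ⟨rfl, rfl⟩ | ⟨rfl, rfl⟩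
    · exact ⟨s1, s2, s3⟩
    · refine ⟨s1, ?_, ?_⟩
      · rw [add_comm]; exact s2
      · rw [s3, add_comm d.1, add_comm d.2]
    · refine ⟨s1.symm, ?_, ?_⟩
      · rw [← s1]; exact s2
      · rw [add_comm, s3, s1]
    · refine ⟨s1.symm, ?_, ?_⟩
      · rw [← s1, add_comm]; exact s2
      · rw [add_comm, s3, s1, add_comm d.1, add_comm d.2]

theorem core {N : ℕ} {a c d : VA N} {b b' : VB N} (hac : a ≠ c) (had : a ≠ d) (hcd : c ≠ d)
    (hb : b ≠ b') (e : (b.1 + b'.1) a.1 = (b.1 + b'.1) c.1)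
    (q1 : (b.1 + b'.1) a.1 ≠ (b.1 + b'.1) c.1 ∨ Sp a c b b')
    (q2 : (b.1 + b'.1) a.1 ≠ (b.1 + b'.1) d.1 ∨ Sp a d b b') : KP {a, c, d} {b, b'} := by
  have s1 := q1.resolve_left (fun h => h e)
  by_cases f : (b.1 + b'.1) a.1 = (b.1 + b'.1) d.1
  · exfalso
    have s2 := q2.resolve_left (fun h => h f)
    obtain ⟨x1, -, x3⟩ := s1
    obtain ⟨y1, -, y3⟩ := s2
    apply hcd
    refine Prod.ext (x1.symm.trans y1) ?_
    exact add_left_cancel (x3.trans y3.symm)
  · exact Or.inr (Or.inr ⟨a, c, d, b, b', hac, had, hcd, hb, rfl, rfl, s1, f⟩)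

theorem z2 : ∀ x y z : ZMod 2, x = y ∨ x = z ∨ y = z := by decide

theorem pCL32 : StCL32 := by
  intro N _ X Y hX hY h
  obtain ⟨b, c, d, hbc, hbd, hcd, rfl⟩ := card_eq_three.1 hX
  obtain ⟨u, v, huv, rfl⟩ := card_eq_two.1 hY
  have e1 : ({b, c, d} : Finset (VA N)).erase d = {b, c} := by
    ext x
    simp only [mem_erase, mem_insert, mem_singleton]
    constructor
    · rintro ⟨h1, h2 | h2 | h2⟩
      · exact Or.inl h2
      · exact Or.inr h2
      · exact absurd h2 h1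
    · rintro (rfl | rfl)
      · exact ⟨hbd, Or.inl rfl⟩
      · exact ⟨hcd, Or.inr (Or.inl rfl)⟩
  have e2 : ({b, c, d} : Finset (VA N)).erase c = {b, d} := by
    ext x
    simp only [mem_erase, mem_insert, mem_singleton]
    constructor
    · rintro ⟨h1, h2 | h2 | h2⟩
      · exact Or.inl h2
      · exact absurd h2 h1
      · exact Or.inr h2
    · rintro (rfl | rfl)
      · exact ⟨hbc, Or.inl rfl⟩
      · exact ⟨hcd.symm, Or.inr (Or.inr rfl)⟩
  have e3 : ({b, c, d} : Finset (VA N)).erase b = {c, d} := by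
    ext x
    simp only [mem_erase, mem_insert, mem_singleton]
    constructor
    · rintro ⟨h1, h2 | h2 | h2⟩
      · exact absurd h2 h1
      · exact Or.inl h2
      · exact Or.inr h2
    · rintro (rfl | rfl)
      · exact ⟨hbc.symm, Or.inr (Or.inl rfl)⟩
      · exact ⟨hbd.symm, Or.inr (Or.inr rfl)⟩
  have p1 := h d (by simp)
  have p2 := h c (by simp)
  have p3 := h b (by simp)
  rw [e1] at p1
  rw [e2] at p2
  rw [e3] at p3
  have q1 := pairL hbc huv p1
  have q2 := pairL hbd huv p2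
  have q3 := pairL hcd huv p3
  have q2' := pairL hbd.symm huv (by rw [pair_comm d b]; exact p2)
  have q3' := pairL hcd.symm huv (by rw [pair_comm d c]; exact p3)
  rcases z2 ((u.1 + v.1) b.1) ((u.1 + v.1) c.1) ((u.1 + v.1) d.1) with e | e | e
  · exact core hbc hbd hcd huv e q1 q2
  · have := core hbd hbc hcd.symm huv e q2 q1
    rwa [pair_comm d c] at this
  · have hcb := pairL hbc.symm huv (by rw [pair_comm c b]; exact p1)
    have := core hcd hbc.symm hbd.symm huv e q3 hcb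
    rw [pair_comm d b, insert_comm c b {d}] at this
    exact this

end Pool.Agent.Helper89.LF
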